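import Pool.Agent.H73.CTG.Stmts

/-!
# Board `ctg`, row ANG: the angle function
-/

set_option autoImplicit false

open Set Filter Topology

namespace Pool.CTG

/-- Row ANG. -/
theorem ANG_thm : ANGStmt := by
  intro n y w hy hw hlt
  obtain ⟨N, hN⟩ : ∃ N : ℝ, N = ‖w‖ := ⟨_, rfl⟩
  have hN0 : 0 < N := by
    rw [hN]
    exact norm_pos_iff.2 hw
  obtain ⟨s, hs⟩ : ∃ s : ℂ, s = inner ℂ y w := ⟨_, rfl⟩
  obtain ⟨B, hB⟩ : ∃ B : ℝ, B = ‖s‖ / N := ⟨_, rfl⟩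
  have hB0 : 0 ≤ B := by
    rw [hB]
    positivity
  have hB1 : B < 1 := by
    rw [hB, div_lt_one hN0, hs, hN]
    exact hlt
  have hBN : B * N = ‖s‖ := by
    rw [hB]
    field_simp
  obtain ⟨C, hC⟩ : ∃ C : ℝ, C = √(1 - B ^ 2) := ⟨_, rfl⟩
  have hC0 : 0 < C := by
    rw [hC]
    exact Real.sqrt_pos.2 (by nlinarith)
  have hC2 : C ^ 2 = 1 - B ^ 2 := by
    rw [hC, Real.sq_sqrt (by nlinarith)]
  -- the phase
  obtain ⟨σ, hσ1, hσs⟩ : ∃ σ : ℂ, ‖σ‖ = 1 ∧ s = (‖s‖ : ℂ) * σ := by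
    by_cases h0 : s = 0
    · exact ⟨1, norm_one, by rw [h0]; simp⟩
    · refine ⟨s / (‖s‖ : ℂ), ?_, ?_⟩
      · rw [norm_div, Complex.norm_real, norm_norm, div_self (norm_ne_zero_iff.2 h0)]
      · have : (‖s‖ : ℂ) ≠ 0 := by exact_mod_cast norm_ne_zero_iff.2 h0
        field_simp
  have hσc : σ * (starRingEnd ℂ) σ = 1 := by
    rw [Complex.mul_conj, Complex.normSq_eq_norm_sq, hσ1]
    norm_num
  have hsc : σ * (starRingEnd ℂ) s = (‖s‖ : ℂ) := by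
    rw [hσs]
    simp only [map_mul, Complex.conj_ofReal, norm_mul, Complex.norm_real, norm_norm, hσ1, mul_one]
    calc σ * ((‖s‖ : ℂ) * (starRingEnd ℂ) σ) = (‖s‖ : ℂ) * (σ * (starRingEnd ℂ) σ) := by ring
      _ = (‖s‖ : ℂ) := by rw [hσc, mul_one]
  obtain ⟨ω, hω⟩ : ∃ ω : E n, ω = ((N / C : ℝ) * σ : ℂ) • y - ((B / C : ℝ) : ℂ) • w := ⟨_, rfl⟩
  have hyy : (inner ℂ y y : ℂ) = 1 := by
    rw [inner_self_eq_norm_sq_to_K, hy]
    norm_num
  have hww : (inner ℂ w w : ℂ) = ((N ^ 2 : ℝ) : ℂ) := by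
    rw [inner_self_eq_norm_sq_to_K, ← hN]
    push_cast
    rfl
  have hwy : (inner ℂ w y : ℂ) = (starRingEnd ℂ) s := by
    rw [hs, inner_conj_symm]
  have hCc : (C : ℂ) ≠ 0 := by exact_mod_cast hC0.ne'
  -- inner products
  have i1 : (inner ℂ y ω : ℂ) = σ * ((N * C : ℝ) : ℂ) := by
    rw [hω, inner_sub_right, inner_smul_right, inner_smul_right, hyy, ← hs, hσs, ← hBN]
    have h1 : ((C ^ 2 : ℝ) : ℂ) = ((1 - B ^ 2 : ℝ) : ℂ) := by rw [hC2]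
    push_cast at h1 ⊢
    field_simp
    linear_combination (-(σ * N)) * h1
  have i2 : (inner ℂ w ω : ℂ) = 0 := by
    rw [hω, inner_sub_right, inner_smul_right, inner_smul_right, hww, hwy]
    have h1 : ((N / C : ℝ) * σ : ℂ) * (starRingEnd ℂ) s = ((N / C : ℝ) : ℂ) * (‖s‖ : ℂ) := by
      rw [mul_assoc, hsc]
    rw [h1, ← hBN]
    push_cast
    field_simp
    ring
  have i3 : (inner ℂ ω w : ℂ) = 0 := by
    rw [← inner_conj_symm, i2, map_zero]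
  have i4 : (inner ℂ ω ω : ℂ) = ((N ^ 2 : ℝ) : ℂ) := by
    have h1 : (inner ℂ ω y : ℂ) = (starRingEnd ℂ) σ * ((N * C : ℝ) : ℂ) := by
      rw [← inner_conj_symm, i1, map_mul, Complex.conj_ofReal]
    have h2 : (inner ℂ ω ω : ℂ) =
        inner ℂ ω (((N / C : ℝ) * σ : ℂ) • y - ((B / C : ℝ) : ℂ) • w) := by
      rw [← hω]
    rw [h2, inner_sub_right, inner_smul_right, inner_smul_right, i3, h1, mul_zero, sub_zero]
    have h3 : ((N / C : ℝ) * σ : ℂ) * ((starRingEnd ℂ) σ * ((N * C : ℝ) : ℂ)) =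
        (σ * (starRingEnd ℂ) σ) * (((N / C) * (N * C) : ℝ) : ℂ) := by
      push_cast
      ring
    rw [h3, hσc, one_mul]
    congr 1
    field_simp
  have hωn : ‖ω‖ = N := by
    have h1 : (((‖ω‖ ^ 2 : ℝ)) : ℂ) = ((N ^ 2 : ℝ) : ℂ) := by
      rw [← i4, inner_self_eq_norm_sq_to_K]
      push_cast
      rfl
    have h2 : ‖ω‖ ^ 2 = N ^ 2 := by exact_mod_cast h1
    exact (sq_eq_sq₀ (norm_nonneg _) hN0.le).1 h2
  -- the angle
  obtain ⟨A, hA⟩ : ∃ A : ℝ, A = Real.arccos B := ⟨_, rfl⟩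
  have hA0 : 0 < A := by
    rw [hA]
    exact Real.arccos_pos.2 hB1
  have hAcos : Real.cos A = B := by
    rw [hA]
    exact Real.cos_arccos (by linarith) hB1.le
  have hAsin : Real.sin A = C := by
    rw [hA, Real.sin_arccos, hC]
  obtain ⟨τ₀, hτ₀, hτ⟩ : ∃ τ₀ > 0, ∀ τ : ℝ, 0 < τ → τ < τ₀ → Real.arctan τ < A := by
    have h1 : Tendsto Real.arctan (𝓝 0) (𝓝 0) :=
      Real.continuous_arctan.tendsto' 0 0 Real.arctan_zero
    obtain ⟨τ₀, h2, h3⟩ := Metric.eventually_nhds_iff.1 (h1.eventually_lt_const hA0)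
    refine ⟨τ₀, h2, fun τ h4 h5 => h3 ?_⟩
    rw [Real.dist_eq, sub_zero, abs_of_pos h4]
    exact h5
  refine ⟨ω, by rw [hωn, hN], τ₀, hτ₀, fun τ h1 h2 => ?_⟩
  have h3 := hτ τ h1 h2
  -- numerator
  have e1 : ‖(inner ℂ y (w + (τ : ℂ) • ω) : ℂ)‖ = N * (B + τ * C) := by
    rw [inner_add_right, inner_smul_right, i1, ← hs]
    have h4 : s + (τ : ℂ) * (σ * ((N * C : ℝ) : ℂ)) = σ * ((N * (B + τ * C) : ℝ) : ℂ) := by
      have h5 : (‖s‖ : ℂ) = ((B * N : ℝ) : ℂ) := by rw [hBN]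
      have h6 : s = ((B * N : ℝ) : ℂ) * σ := by
        rw [← h5]
        exact hσs
      rw [h6]
      push_cast
      ring
    rw [h4, norm_mul, hσ1, one_mul, Complex.norm_real, Real.norm_of_nonneg (by positivity)]
  -- denominator
  have e2 : ‖w + (τ : ℂ) • ω‖ = N * √(1 + τ ^ 2) := by
    have h4 : (((‖w + (τ : ℂ) • ω‖ ^ 2 : ℝ)) : ℂ) = ((N ^ 2 * (1 + τ ^ 2) : ℝ) : ℂ) := by
      have h5 : (inner ℂ (w + (τ : ℂ) • ω) (w + (τ : ℂ) • ω) : ℂ) =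
          ((N ^ 2 * (1 + τ ^ 2) : ℝ) : ℂ) := by
        rw [inner_add_left, inner_add_right, inner_add_right, inner_smul_left, inner_smul_left,
          inner_smul_right, inner_smul_right, i2, i3, i4, hww, Complex.conj_ofReal]
        push_cast
        ring
      rw [← h5, inner_self_eq_norm_sq_to_K]
      push_cast
      rfl
    have h5 : ‖w + (τ : ℂ) • ω‖ ^ 2 = N ^ 2 * (1 + τ ^ 2) := by exact_mod_cast h4
    have h6 : ‖w + (τ : ℂ) • ω‖ ^ 2 = (N * √(1 + τ ^ 2)) ^ 2 := by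
      rw [h5, mul_pow, Real.sq_sqrt (by positivity)]
    exact (sq_eq_sq₀ (norm_nonneg _) (by positivity)).1 h6
  have e3 : ‖(inner ℂ y (w + (τ : ℂ) • ω) : ℂ)‖ / ‖w + (τ : ℂ) • ω‖ =
      Real.cos (A - Real.arctan τ) := by
    rw [e1, e2, Real.cos_sub, hAcos, hAsin, Real.cos_arctan, Real.sin_arctan]
    have h4 : 0 < √(1 + τ ^ 2) := Real.sqrt_pos.2 (by positivity)
    field_simp
  rw [e3, Real.arccos_cos (by linarith) ?_, ← hs, ← hN, ← hB, ← hA]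
  have h4 : A ≤ Real.pi := by
    rw [hA]
    exact Real.arccos_le_pi _
  have h5 : 0 < Real.arctan τ := Real.arctan_pos.2 h1
  linarith

end Pool.CTG
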