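import Pool.Agent.H73.CTG.Stmts

/-!
# Board `ctg`, row THM: the theorem on `Fin n → ℂ`
-/

set_option autoImplicit false

open Set Filter Topology

namespace Pool.CTG

lemma THM_eval {n d : ℕ} (p : MvPolynomial (Fin n) ℂ) (hp : p.IsHomogeneous d) (c : ℂ)
    (z : Fin n → ℂ) : MvPolynomial.eval (c • z) p = c ^ d * MvPolynomial.eval z p := by
  rw [MvPolynomial.eval_eq', MvPolynomial.eval_eq', Finset.mul_sum]
  refine Finset.sum_congr rfl fun m hm => ?_
  have h1 : ∑ i, m i = d := by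
    have h : Finsupp.weight (fun _ : Fin n => 1) m = d := hp (MvPolynomial.mem_support_iff.1 hm)
    rw [← Finsupp.degree_eq_weight_one] at h
    rw [← h, Finsupp.degree_eq_sum]
  have h2 : ∏ i, (c • z) i ^ m i = c ^ d * ∏ i, z i ^ m i := by
    rw [← h1, ← Finset.prod_pow_eq_pow_sum, ← Finset.prod_mul_distrib]
    refine Finset.prod_congr rfl fun i _ => ?_
    rw [Pi.smul_apply, smul_eq_mul, mul_pow]
  rw [h2]
  ring

lemma THM_cd {n : ℕ} (p : MvPolynomial (Fin n) ℂ) :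
    ContDiff ℂ 3 (fun z : Fin n → ℂ => MvPolynomial.eval z p) := by
  have h1 : (fun z : Fin n → ℂ => MvPolynomial.eval z p) =
      fun z => ∑ m ∈ p.support, p.coeff m * ∏ i, z i ^ m i := by
    funext z
    exact MvPolynomial.eval_eq' z p
  rw [h1]
  refine ContDiff.sum fun m _ => contDiff_const.mul ?_
  exact contDiff_prod fun i _ => (contDiff_apply ℂ ℂ i).pow _

/-- Row THM. -/
theorem THM_thm (hPSO : PSOStmt) (hUOP : UOPStmt) (hUMP : UMPStmt) (hITE : ITEStmt)
    (hLFT : LFTStmt) (hCRI : CRIStmt) (hGPR : GPRStmt) : THMStmt := by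
  intro n d H f p hn hd hH hH0 hHh hp hf hmap hK
  obtain ⟨T, hT⟩ : ∃ T : E n ≃L[ℂ] (Fin n → ℂ), T = EuclideanSpace.equiv (Fin n) ℂ := ⟨_, rfl⟩
  have hfc : ContDiff ℂ 3 f := by
    rw [contDiff_pi]
    intro i
    have h1 : (fun z => f z i) = fun z => MvPolynomial.eval z (p i) := funext fun z => hf z i
    rw [h1]
    exact THM_cd (p i)
  have hfh : ∀ (c : ℂ) (z : Fin n → ℂ), f (c • z) = c ^ d • f z := by
    intro c z
    funext i
    rw [hf, THM_eval (p i) (hp i), Pi.smul_apply, smul_eq_mul, hf]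
  obtain ⟨F, hF⟩ : ∃ F : E n → E n, F = fun z => T.symm (f (T z)) := ⟨_, rfl⟩
  have hFv : ∀ z, F z = T.symm (f (T z)) := fun z => by rw [hF]
  have hTF : ∀ z, T (F z) = f (T z) := fun z => by rw [hFv, T.apply_symm_apply]
  have hFc : ContDiff ℂ 3 F := by
    rw [hF]
    exact T.symm.contDiff.comp (hfc.comp T.contDiff)
  have hFh : ∀ (c : ℂ) (z : E n), F (c • z) = c ^ d • F z := by
    intro c z
    rw [hFv, hFv, map_smul, hfh, map_smul]
  have hT0 : ∀ z : E n, z ≠ 0 → T z ≠ 0 := fun z hz h => hz (by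
    rw [← T.symm_apply_apply z, h, map_zero])
  have hG : Hyp F d (fun z => Real.log (H (T z))) := by
    refine hGPR n d F (fun z => H (T z)) hn hd (hFc.of_le (by norm_num)) hFh ?_ ?_ ?_ ?_ ?_
    · refine hH.comp ((T : E n →L[ℂ] (Fin n → ℂ)).restrictScalars ℝ).contDiff.contDiffOn ?_
      exact fun z hz => hT0 z hz
    · exact fun z hz => hH0 _ (hT0 z hz)
    · intro c z
      rw [map_smul, hHh]
    · intro z hz
      show H (T (F z)) < 1
      rw [hTF]
      exact hmap hz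
    · intro K hKs hKc
      have h1 : IsCompact (T '' K) := hKc.image T.continuous
      have h2 : T '' K ⊆ {z | H z < 1} := by
        rintro _ ⟨z, hz, rfl⟩
        exact hKs hz
      have h3 := hK _ h2 h1
      have h4 : ({z | H (T z) < 1} ∩ F ⁻¹' K : Set (E n)) =
          T.symm '' ({z | H z < 1} ∩ f ⁻¹' (T '' K)) := by
        ext z
        constructor
        · rintro ⟨h5, h6⟩
          exact ⟨T z, ⟨h5, ⟨F z, h6, hTF z⟩⟩, T.symm_apply_apply z⟩
        · rintro ⟨w, ⟨h5, ⟨y, hy, hyw⟩⟩, rfl⟩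
          refine ⟨?_, ?_⟩
          · show H (T (T.symm w)) < 1
            rw [T.apply_symm_apply]
            exact h5
          · show F (T.symm w) ∈ K
            rw [hFv, T.apply_symm_apply, ← hyw, T.symm_apply_apply]
            exact hy
      rw [h4]
      exact h3.image T.symm.continuous
  obtain ⟨z₀, hz₀⟩ := hPSO n F d _ hG
  obtain ⟨hUo, hUc⟩ := hUOP n F d _ hG
  obtain ⟨hUm, hUb⟩ := hUMP n F d _ hG
  obtain ⟨δ, hδ, hδU⟩ := Metric.nhds_basis_closedBall.mem_iff.1 (hUo.mem_nhds hz₀)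
  obtain ⟨k, hk⟩ := hLFT n F d _ z₀ δ hG hδ hδU
  obtain ⟨-, hkU, -, -⟩ := hITE n F d _ hG k
  obtain ⟨y, hy0, hy⟩ := hCRI n d F hn hd hFc hFh
  obtain ⟨z, hz, c, hc, hzc⟩ := hk y hy0
  have h1 : c • y ∈ U (fun z => Real.log (H (T z))) := by
    rw [← hzc]
    exact hkU (hδU hz)
  exact hy (hUb y ((hUc c y hc).1 h1))

end Pool.CTG
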